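import Pool.Agent.Helper30.AC.Stmts

/-! Row UB of sheet AC: a pointwise convergent sequence of continuous affine maps on a compact
convex set is uniformly bounded. -/

set_option autoImplicit false

universe u

open Filter Topology

namespace Pool.Agent.Helper70.AC

open Pool.Agent.Helper30.AC

theorem st_UB : ST_UB.{u} := by
  intro E _ _ _ K b hK hb hl
  obtain ⟨hKc, hKv, hK0, hKs⟩ := hK
  have : CompactSpace K := isCompact_iff_compactSpace.1 hKc
  have : Nonempty K := ⟨⟨0, hK0⟩⟩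
  obtain ⟨F, hF⟩ : ∃ F : ℕ → Set K, ∀ N v, v ∈ F N ↔ ∀ m, ‖b m v‖ ≤ (N : ℝ) :=
    ⟨fun N => {v | ∀ m, ‖b m v‖ ≤ (N : ℝ)}, fun N v => Iff.rfl⟩
  have hcl : ∀ N, IsClosed (F N) := by
    intro N
    have : F N = ⋂ m : ℕ, {v | ‖b m v‖ ≤ (N : ℝ)} := by
      ext v
      rw [hF, Set.mem_iInter]
      rfl
    rw [this]
    exact isClosed_iInter fun m => isClosed_le (hb m).1.norm continuous_const
  have hcov : ⋃ N, F N = Set.univ := by
    refine Set.eq_univ_of_forall fun v => ?_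
    obtain ⟨l, hl⟩ := hl v
    obtain ⟨R, hR⟩ := (Metric.isBounded_range_of_tendsto _ hl).exists_norm_le
    obtain ⟨N, hN⟩ := exists_nat_ge R
    exact Set.mem_iUnion.2 ⟨N, (hF N v).2 fun m => (hR _ (Set.mem_range_self m)).trans hN⟩
  obtain ⟨N, x0, hx0⟩ := nonempty_interior_of_iUnion_of_closed hcl hcov
  obtain ⟨O, hO, hOi⟩ := isOpen_induced_iff.1 (isOpen_interior (s := F N))
  have hx0O : (x0 : E) ∈ O := by
    have : x0 ∈ Subtype.val ⁻¹' O := by
      rw [hOi]
      exact hx0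
    exact this
  obtain ⟨r, hr, hball⟩ := Metric.isOpen_iff.1 hO x0 hx0O
  obtain ⟨R, hR⟩ := hKc.isBounded.exists_norm_le
  have hR0 : 0 ≤ R := (norm_nonneg _).trans (hR 0 hK0)
  obtain ⟨t, ht0, ht1, htr⟩ : ∃ t : ℝ, 0 < t ∧ t ≤ 1 ∧ t * (2 * R) < r := by
    have hs : 0 < r / (2 * R + 1) := by positivity
    have hs2 : r / (2 * R + 1) * (2 * R + 1) = r := by field_simp
    refine ⟨min 1 (r / (2 * R + 1)), lt_min one_pos hs, min_le_left _ _, ?_⟩
    have h1 : min 1 (r / (2 * R + 1)) * (2 * R) ≤ r / (2 * R + 1) * (2 * R) :=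
      mul_le_mul_of_nonneg_right (min_le_right _ _) (by positivity)
    linarith
  refine ⟨2 * N / t, fun m y => ?_⟩
  have hz : t • (y : E) + (1 - t) • (x0 : E) ∈ K :=
    hKv y.2 x0.2 ht0.le (by linarith) (by ring)
  have hzO : t • (y : E) + (1 - t) • (x0 : E) ∈ O := by
    apply hball
    rw [Metric.mem_ball, dist_eq_norm]
    have e : t • (y : E) + (1 - t) • (x0 : E) - x0 = t • ((y : E) - x0) := by
      rw [smul_sub, sub_smul, one_smul]
      abel
    rw [e, norm_smul, Real.norm_of_nonneg ht0.le]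
    have h1 := norm_sub_le (y : E) x0
    have h2 := hR y y.2
    have h3 := hR x0 x0.2
    calc t * ‖(y : E) - x0‖ ≤ t * (2 * R) := mul_le_mul_of_nonneg_left (by linarith) ht0.le
      _ < r := htr
  have hzF : (⟨_, hz⟩ : K) ∈ F N := by
    apply interior_subset (s := F N)
    rw [← hOi]
    exact hzO
  have hx0F : x0 ∈ F N := interior_subset hx0
  have h4 := (hF N _).1 hzF m
  have h5 := (hF N _).1 hx0F m
  have haff := (hb m).2 y x0 ⟨_, hz⟩ t ht0.le ht1 rfl
  have h1 : t • b m y = b m ⟨_, hz⟩ - (1 - t) • b m x0 := by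
    rw [haff]
    abel
  have h2 : ‖t • b m y‖ ≤ 2 * N := by
    rw [h1]
    calc ‖b m ⟨_, hz⟩ - (1 - t) • b m x0‖ ≤ ‖b m ⟨_, hz⟩‖ + ‖(1 - t) • b m x0‖ :=
          norm_sub_le _ _
      _ = ‖b m ⟨_, hz⟩‖ + (1 - t) * ‖b m x0‖ := by
          rw [norm_smul, Real.norm_of_nonneg (by linarith)]
      _ ≤ N + 1 * N := by
          refine add_le_add h4 ?_
          exact mul_le_mul (by linarith) h5 (norm_nonneg _) (by norm_num)
      _ = 2 * N := by ring
  rw [norm_smul, Real.norm_of_nonneg ht0.le] at h2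
  rw [le_div_iff₀ ht0]
  linarith

end Pool.Agent.Helper70.AC
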